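import Pool.Agent.Helper43.CR.Defs

/-!
# Project CR, piece CR-1: Brouwer's characterization of Cantor space
-/

set_option autoImplicit false

open Set Topology Filter TopologicalSpace

namespace Pool.Agent.Helper12.CR

section defs

variable {S : Type} (C : ℕ → Set S)

/-- The indices which split the set `P`. -/
def splitSet (P : Set S) : Set ℕ := {n | (P ∩ C n).Nonempty ∧ (P \ C n).Nonempty}

/-- The least index which splits `P`. -/
noncomputable def idx (P : Set S) : ℕ := sInf (splitSet C P)

/-- The two children of a piece. -/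
noncomputable def child (P : Set S) (b : Bool) : Set S :=
  if b = true then P ∩ C (idx C P) else P \ C (idx C P)

/-- The pieces along a branch. -/
noncomputable def piece (ω : ℕ → Bool) : ℕ → Set S
  | 0 => univ
  | k + 1 => child C (piece ω k) (ω k)

theorem child_subset (P : Set S) (b : Bool) : child C P b ⊆ P := by
  unfold child
  split_ifs
  · exact inter_subset_left
  · exact sdiff_subset

theorem child_true (P : Set S) : child C P true = P ∩ C (idx C P) := by simp [child]

theorem child_false (P : Set S) : child C P false = P \ C (idx C P) := by simp [child]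

theorem splitSet_mono {P Q : Set S} (h : P ⊆ Q) : splitSet C P ⊆ splitSet C Q :=
  fun _ hn => ⟨hn.1.mono (inter_subset_inter_left _ h), hn.2.mono (sdiff_subset_sdiff_left h)⟩

theorem idx_notMem_child (P : Set S) (b : Bool) : idx C P ∉ splitSet C (child C P b) := by
  rintro ⟨⟨x, hx1, hx2⟩, ⟨y, hy1, hy2⟩⟩
  cases b
  · rw [child_false] at hx1
    exact hx1.2 hx2
  · rw [child_true] at hy1
    exact hy2 hy1.2

theorem idx_lt_child (P : Set S) (b : Bool) (h : (splitSet C (child C P b)).Nonempty) :
    idx C P < idx C (child C P b) := by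
  have h1 : idx C (child C P b) ∈ splitSet C (child C P b) := Nat.sInf_mem h
  have h2 : idx C (child C P b) ∈ splitSet C P := splitSet_mono C (child_subset C P b) h1
  have h3 : idx C P ≤ idx C (child C P b) := Nat.sInf_le h2
  rcases h3.eq_or_lt with h4 | h4
  · exact absurd (h4 ▸ h1) (idx_notMem_child C P b)
  · exact h4

theorem piece_congr {ω ω' : ℕ → Bool} (k : ℕ) (h : ∀ i < k, ω i = ω' i) :
    piece C ω k = piece C ω' k := by
  induction k with
  | zero => rfl
  | succ k ih =>
    show child C (piece C ω k) (ω k) = child C (piece C ω' k) (ω' k)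
    rw [ih (fun i hi => h i (Nat.lt_succ_of_lt hi)), h k (Nat.lt_succ_self k)]

theorem piece_anti (ω : ℕ → Bool) : Antitone (piece C ω) :=
  antitone_nat_of_succ_le (fun _ => child_subset C _ _)

end defs

/-- Brouwer: a nonempty compact Hausdorff space without isolated points whose points are separated
by countably many clopen sets is homeomorphic to Cantor space. -/
theorem brouwer (S : Type) [TopologicalSpace S] [CompactSpace S] [T2Space S] [Nonempty S]
    (C : ℕ → Set S) (hC : ∀ n, IsClopen (C n))
    (hsep : ∀ x y, x ≠ y → ∃ n, ¬ (x ∈ C n ↔ y ∈ C n))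
    (hperf : ∀ (x : S) (U : Set S), IsOpen U → x ∈ U → ∃ y ∈ U, y ≠ x) :
    Nonempty (S ≃ₜ (ℕ → Bool)) := by
  classical
  -- nonempty open sets are split
  have hsplit : ∀ P : Set S, IsOpen P → P.Nonempty → (splitSet C P).Nonempty := by
    rintro P hP ⟨x, hx⟩
    obtain ⟨y, hy, hyx⟩ := hperf x P hP hx
    obtain ⟨n, hn⟩ := hsep y x hyx
    refine ⟨n, ?_⟩
    by_cases hxn : x ∈ C n
    · have hyn : y ∉ C n := fun h => hn ⟨fun _ => hxn, fun _ => h⟩
      exact ⟨⟨x, hx, hxn⟩, ⟨y, hy, hyn⟩⟩
    · have hyn : y ∈ C n := by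
        by_contra h
        exact hn ⟨fun h' => absurd h' h, fun h' => absurd h' hxn⟩
      exact ⟨⟨y, hy, hyn⟩, ⟨x, hx, hxn⟩⟩
  -- pieces are clopen and nonempty
  have hpc : ∀ (ω : ℕ → Bool) (k : ℕ), IsClopen (piece C ω k) ∧ (piece C ω k).Nonempty := by
    intro ω k
    induction k with
    | zero => exact ⟨isClopen_univ, univ_nonempty⟩
    | succ k ih =>
      have hs : idx C (piece C ω k) ∈ splitSet C (piece C ω k) :=
        Nat.sInf_mem (hsplit _ ih.1.isOpen ih.2)
      show IsClopen (child C (piece C ω k) (ω k)) ∧ (child C (piece C ω k) (ω k)).Nonempty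
      cases ω k
      · rw [child_false]
        exact ⟨ih.1.diff (hC _), hs.2⟩
      · rw [child_true]
        exact ⟨ih.1.inter (hC _), hs.1⟩
  have hidx : ∀ (ω : ℕ → Bool) (k : ℕ), k ≤ idx C (piece C ω k) := by
    intro ω k
    induction k with
    | zero => exact Nat.zero_le _
    | succ k ih =>
      have h1 := idx_lt_child C (piece C ω k) (ω k)
        (hsplit _ (hpc ω (k + 1)).1.isOpen (hpc ω (k + 1)).2)
      exact lt_of_le_of_lt ih h1
  -- a piece at depth `k` is not split by earlier sets
  have huns : ∀ (ω : ℕ → Bool) (k m : ℕ), m < k → ∀ x ∈ piece C ω k, ∀ y ∈ piece C ω k,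
      x ∈ C m → y ∈ C m := by
    intro ω k m hmk x hx y hy hxm
    by_contra hym
    have hmem : m ∈ splitSet C (piece C ω k) := ⟨⟨x, hx, hxm⟩, ⟨y, hy, hym⟩⟩
    have : idx C (piece C ω k) ≤ m := Nat.sInf_le hmem
    have := hidx ω k
    omega
  have hne : ∀ ω : ℕ → Bool, (⋂ k, piece C ω k).Nonempty := by
    intro ω
    exact IsCompact.nonempty_iInter_of_sequence_nonempty_isCompact_isClosed (piece C ω)
      (fun k => piece_anti C ω (Nat.le_succ k)) (fun k => (hpc ω k).2)
      ((hpc ω 0).1.isClosed.isCompact) (fun k => (hpc ω k).1.isClosed)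
  choose F hF using hne
  have hFk : ∀ ω k, F ω ∈ piece C ω k := fun ω k => mem_iInter.1 (hF ω) k
  have huniq : ∀ (ω : ℕ → Bool) (x y : S), (∀ k, x ∈ piece C ω k) → (∀ k, y ∈ piece C ω k) →
      x = y := by
    intro ω x y hx hy
    by_contra hxy
    obtain ⟨n, hn⟩ := hsep x y hxy
    exact hn ⟨huns ω (n + 1) n (Nat.lt_succ_self n) x (hx _) y (hy _),
      huns ω (n + 1) n (Nat.lt_succ_self n) y (hy _) x (hx _)⟩
  have hinj : Function.Injective F := by
    intro ω ω' h
    by_contra hne
    have hex : ∃ k, ω k ≠ ω' k := by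
      by_contra h'
      push Not at h'
      exact hne (funext h')
    have hk := Nat.find_spec hex
    have hlt : ∀ i < Nat.find hex, ω i = ω' i := fun i hi => by
      by_contra h'
      exact Nat.find_min hex hi h'
    set k := Nat.find hex with hkdef
    have h1 : F ω ∈ child C (piece C ω k) (ω k) := hFk ω (k + 1)
    have h2 : F ω' ∈ child C (piece C ω' k) (ω' k) := hFk ω' (k + 1)
    rw [← piece_congr C k hlt, ← h] at h2
    cases hb : ω k <;> cases hb' : ω' k
    · exact hk (hb.trans hb'.symm)
    · rw [hb, child_false] at h1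
      rw [hb', child_true] at h2
      exact h1.2 h2.2
    · rw [hb, child_true] at h1
      rw [hb', child_false] at h2
      exact h2.2 h1.2
    · exact hk (hb.trans hb'.symm)
  have hsurj : Function.Surjective F := by
    intro x
    -- the branch of `x`
    let Q : ℕ → Set S := fun k => Nat.rec univ
      (fun _ P => child C P (decide (x ∈ C (idx C P)))) k
    let ω : ℕ → Bool := fun k => decide (x ∈ C (idx C (Q k)))
    have hQ : ∀ k, piece C ω k = Q k := by
      intro k
      induction k with
      | zero => rfl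
      | succ k ih =>
        show child C (piece C ω k) (ω k) = child C (Q k) (decide (x ∈ C (idx C (Q k))))
        rw [ih]
    have hx : ∀ k, x ∈ piece C ω k := by
      intro k
      induction k with
      | zero => exact mem_univ x
      | succ k ih =>
        show x ∈ child C (piece C ω k) (ω k)
        have hω : ω k = decide (x ∈ C (idx C (piece C ω k))) := by rw [hQ k]
        by_cases h : x ∈ C (idx C (piece C ω k))
        · rw [hω, decide_eq_true h, child_true]
          exact ⟨ih, h⟩
        · rw [hω, decide_eq_false h, child_false]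
          exact ⟨ih, h⟩
    exact ⟨ω, huniq ω _ _ (hFk ω) hx⟩
  have hcont : Continuous F := by
    rw [continuous_iff_continuousAt]
    intro ω
    rw [ContinuousAt, tendsto_def]
    intro V hV
    obtain ⟨U, hUV, hU, hωU⟩ := mem_nhds_iff.1 hV
    -- some piece is contained in `U`
    have hex : ∃ k, piece C ω k ⊆ U := by
      by_contra hno
      push Not at hno
      have hne2 : (⋂ k, (piece C ω k ∩ Uᶜ)).Nonempty := by
        refine IsCompact.nonempty_iInter_of_sequence_nonempty_isCompact_isClosed
          (fun k => piece C ω k ∩ Uᶜ)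
          (fun k => inter_subset_inter_left _ (piece_anti C ω (Nat.le_succ k)))
          (fun k => ?_) (((hpc ω 0).1.isClosed.inter hU.isClosed_compl).isCompact)
          (fun k => (hpc ω k).1.isClosed.inter hU.isClosed_compl)
        obtain ⟨y, hy, hyU⟩ := not_subset.1 (hno k)
        exact ⟨y, hy, hyU⟩
      obtain ⟨y, hy⟩ := hne2
      have hy1 : ∀ k, y ∈ piece C ω k := fun k => (mem_iInter.1 hy k).1
      have hy2 : y ∉ U := (mem_iInter.1 hy 0).2
      exact hy2 (huniq ω y (F ω) hy1 (hFk ω) ▸ hωU)
    obtain ⟨k, hk⟩ := hex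
    have hopen : {ω' : ℕ → Bool | ∀ i < k, ω' i = ω i} ∈ 𝓝 ω := by
      have : {ω' : ℕ → Bool | ∀ i < k, ω' i = ω i}
          = ⋂ i ∈ Finset.range k, {ω' : ℕ → Bool | ω' i = ω i} := by
        ext ω'
        simp
      rw [this]
      refine (Finset.iInter_mem_sets _).2 (fun i _ => ?_)
      have hc : Continuous (fun ω' : ℕ → Bool => ω' i) := continuous_apply i
      have ho : IsOpen {ω' : ℕ → Bool | ω' i = ω i} :=
        (isOpen_discrete ({ω i} : Set Bool)).preimage hc
      exact ho.mem_nhds rfl
    filter_upwards [hopen] with ω' hω'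
    have h1 := hFk ω' k
    rw [piece_congr C k hω'] at h1
    exact hUV (hk h1)
  exact ⟨(Continuous.homeoOfEquivCompactToT2 (f := Equiv.ofBijective F ⟨hinj, hsurj⟩)
    hcont).symm⟩

end Pool.Agent.Helper12.CR
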